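import Pool.Agent.H24R2.DZ.Spec
import Mathlib.Analysis.Complex.BorelCaratheodory
import Mathlib.Analysis.Complex.HasPrimitives

/-!
SHar: Harnack and Borel-Caratheodory along a chain of discs.
-/

set_option autoImplicit false

namespace Pool.Agent.W688.SD

open Complex Filter Topology Set Metric
open Pool.Agent.H24R2.DZ

/-- local logarithm -/
lemma exists_log {K : ℂ → ℂ} {w : ℂ} {d : ℝ} (hd : 0 < d) (hK : DifferentiableOn ℂ K (ball w d))
    (h0 : ∀ z ∈ ball w d, K z ≠ 0) :
    ∃ G : ℂ → ℂ, G w = 0 ∧ (∀ z ∈ ball w d, HasDerivAt G (logDeriv K z) z) ∧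
      ∀ z ∈ ball w d, K z = K w * cexp (G z) := by
  have hL : DifferentiableOn ℂ (logDeriv K) (ball w d) := by
    have h1 : DifferentiableOn ℂ (deriv K) (ball w d) := hK.deriv isOpen_ball
    exact h1.div hK h0
  obtain ⟨G, hG0, hG⟩ := (hL.isExactOn_ball).with_val_at w 0
  have hG' : ∀ z ∈ ball w d, HasDerivAt G (logDeriv K z) z := hG
  refine ⟨G, hG0, hG', ?_⟩
  have hc : ∀ z ∈ ball w d, K z * cexp (-(G z)) = K w * cexp (-(G w)) := by
    intro z hz
    have hder : ∀ x ∈ ball w d, HasDerivAt (fun x => K x * cexp (-(G x))) 0 x := by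
      intro x hx
      have h1 : HasDerivAt K (deriv K x) x := (hK.differentiableAt (isOpen_ball.mem_nhds hx)).hasDerivAt
      have h2 := h1.mul (hG' x hx).neg.cexp
      refine h2.congr_deriv ?_
      have h3 := h0 x hx
      rw [logDeriv_apply]
      field_simp
      ring
    have hw : w ∈ ball w d := mem_ball_self hd
    refine (convex_ball w d).is_const_of_fderivWithin_eq_zero (𝕜 := ℂ) (f := fun x => K x * cexp (-(G x)))
      (fun x hx => (hder x hx).differentiableAt.differentiableWithinAt) ?_ hz hw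
    intro x hx
    rw [fderivWithin_of_isOpen isOpen_ball hx]
    have := (hder x hx).hasFDerivAt.fderiv
    rw [this]
    ext
    simp
  intro z hz
  have h1 := hc z hz
  rw [hG0, neg_zero, Complex.exp_zero, mul_one] at h1
  rw [← h1, mul_assoc, ← Complex.exp_add, neg_add_cancel, Complex.exp_zero, mul_one]

lemma step {K : ℂ → ℂ} {w : ℂ} {d M : ℝ} (hd : 0 < d) (hM : 0 < M) (hK : DifferentiableOn ℂ K (ball w d))
    (h0 : ∀ z ∈ ball w d, K z ≠ 0) (hb : ∀ z ∈ ball w d, ‖K z‖ ≤ Real.exp M * ‖K w‖) :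
    (∀ z : ℂ, ‖z - w‖ ≤ d / 2 → ‖K w‖ ≤ Real.exp (2 * M) * ‖K z‖) ∧ ‖logDeriv K w‖ ≤ 4 * M / d := by
  obtain ⟨G, hG0, hG, hKG⟩ := exists_log hd hK h0
  have hw0 : 0 < ‖K w‖ := norm_pos_iff.2 (h0 w (mem_ball_self hd))
  have hre : ∀ z ∈ ball w d, (G z).re ≤ M := by
    intro z hz
    have h1 := hb z hz
    rw [hKG z hz, norm_mul, Complex.norm_exp, mul_comm] at h1
    have h2 := le_of_mul_le_mul_right h1 hw0
    exact Real.exp_le_exp.1 h2
  have hbd : ∀ z : ℂ, ‖z - w‖ ≤ d / 2 → ‖G z‖ ≤ 2 * M := by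
    intro z hz
    have hz' : z - w ∈ ball (0:ℂ) d := by
      rw [mem_ball_zero_iff]; linarith
    have hmem : ∀ u ∈ ball (0:ℂ) d, u + w ∈ ball w d := by
      intro u hu
      rw [mem_ball_zero_iff] at hu
      rw [mem_ball, dist_eq_norm]
      simpa using hu
    have hbc := Complex.borelCaratheodory_zero (f := fun u => G (u + w)) (R := d) (M := M) (z := z - w) hM
      (by
        intro u hu
        have h1 := (hG _ (hmem u hu)).differentiableAt
        exact (DifferentiableAt.comp u h1 (by fun_prop)).differentiableWithinAt)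
      (by
        intro u hu
        exact hre _ (hmem u hu)) hd hz' (by simpa using hG0)
    simp only [sub_add_cancel] at hbc
    refine hbc.trans ?_
    rw [div_le_iff₀ (by linarith)]
    have := norm_nonneg (z - w)
    nlinarith
  constructor
  · intro z hz
    have hz' : z ∈ ball w d := by
      rw [mem_ball, dist_eq_norm]; linarith
    have h1 := hbd z hz
    have h2 : -(2 * M) ≤ (G z).re := by
      have := Complex.abs_re_le_norm (G z)
      have := neg_abs_le (G z).re
      linarith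
    rw [hKG z hz', norm_mul, Complex.norm_exp]
    calc ‖K w‖ = ‖K w‖ * 1 := (mul_one _).symm
      _ ≤ ‖K w‖ * Real.exp (2 * M + (G z).re) := by
          apply mul_le_mul_of_nonneg_left _ hw0.le
          apply Real.one_le_exp
          linarith
      _ = _ := by rw [Real.exp_add]; ring
  · have h1 : deriv G w = logDeriv K w := (hG w (mem_ball_self hd)).deriv
    rw [← h1]
    have h2 := Complex.norm_deriv_le_of_forall_mem_sphere_norm_le (f := G) (c := w) (R := d / 2)
      (C := 2 * M) (by linarith) (by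
        have hsub : closedBall w (d / 2) ⊆ ball w d := closedBall_subset_ball (by linarith)
        apply DifferentiableOn.diffContOnCl
        rw [closure_ball w (by linarith : d / 2 ≠ 0)]
        intro z hz
        exact (hG z (hsub hz)).differentiableAt.differentiableWithinAt) (by
        intro z hz
        apply hbd
        rw [mem_sphere, dist_eq_norm] at hz
        exact hz.le)
    calc ‖deriv G w‖ ≤ 2 * M / (d / 2) := h2
      _ = 4 * M / d := by ring

theorem har_pos {N : ℕ} (hN : 164000 ≤ N) {B : ℝ} {K : ℂ → ℂ} (hB : 0 < B)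
    (hK : ∀ z : ℂ, 1 / 2000 ≤ z.re → z.re ≤ 25 → |z.im| ≤ 25 →
      DifferentiableAt ℂ K z ∧ K z ≠ 0 ∧ ‖K z‖ ≤ Real.exp B * ‖K 1‖) (z : ℂ) (h1 : 1 / 1000 ≤ z.re)
    (h2 : z.re ≤ 21) (h3 : |z.im| ≤ 21) : ‖logDeriv K z‖ ≤ 8000 * 3 ^ N * B := by
  have hN0 : (0:ℝ) < N := by
    have : 0 < N := by omega
    exact_mod_cast this
  have hNR : (164000:ℝ) ≤ N := by exact_mod_cast hN
  set p : ℕ → ℂ := fun j => 1 + ((j / N : ℝ) : ℂ) * (z - 1) with hp
  have h3' := abs_le.1 h3
  -- position of the points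
  have hpre : ∀ j ≤ N, 1 / 1000 ≤ (p j).re ∧ (p j).re ≤ 21 ∧ |(p j).im| ≤ 21 := by
    intro j hj
    have hjN : (j:ℝ) ≤ N := by exact_mod_cast hj
    set τ : ℝ := (j:ℝ) / N with hτ
    have t0 : 0 ≤ τ := by positivity
    have t1 : τ ≤ 1 := by rw [hτ, div_le_one hN0]; exact hjN
    have e1 : (p j).re = 1 + τ * (z.re - 1) := by
      rw [hp]; simp only [Complex.add_re, Complex.one_re, Complex.mul_re, Complex.ofReal_re,
        Complex.ofReal_im, Complex.sub_re, Complex.sub_im, Complex.one_im]; ring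
    have e2 : (p j).im = τ * z.im := by
      rw [hp]; simp only [Complex.add_im, Complex.one_im, Complex.mul_im, Complex.ofReal_re,
        Complex.ofReal_im, Complex.sub_re, Complex.sub_im, Complex.one_re]; ring
    rw [e1, e2]
    refine ⟨by nlinarith, by nlinarith, ?_⟩
    rw [abs_le]
    constructor <;> nlinarith
  have hball : ∀ j ≤ N, ∀ u ∈ ball (p j) (1 / 2000), 1 / 2000 ≤ u.re ∧ u.re ≤ 25 ∧ |u.im| ≤ 25 := by
    intro j hj u hu
    obtain ⟨a1, a2, a3⟩ := hpre j hj
    rw [mem_ball, dist_eq_norm] at hu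
    have b1 := abs_le.1 ((Complex.abs_re_le_norm (u - p j)).trans hu.le)
    have b2 := abs_le.1 ((Complex.abs_im_le_norm (u - p j)).trans hu.le)
    rw [Complex.sub_re] at b1
    rw [Complex.sub_im] at b2
    have a3' := abs_le.1 a3
    refine ⟨by linarith [b1.1], by linarith [b1.2], ?_⟩
    rw [abs_le]
    constructor <;> linarith [b2.1, b2.2]
  have hstep : ∀ j, p (j + 1) - p j = ((1 / N : ℝ) : ℂ) * (z - 1) := by
    intro j
    rw [hp]
    push_cast
    ring
  have hz1 : ‖z - 1‖ ≤ 41 := by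
    have := Complex.norm_le_abs_re_add_abs_im (z - 1)
    rw [Complex.sub_re, Complex.sub_im, Complex.one_re, Complex.one_im, sub_zero] at this
    have h4 : |z.re - 1| ≤ 20 := by rw [abs_le]; constructor <;> linarith
    linarith
  have hdist : ∀ j, ‖p (j + 1) - p j‖ ≤ (1 / 2000) / 2 := by
    intro j
    rw [hstep, norm_mul, Complex.norm_real, Real.norm_of_nonneg (by positivity)]
    rw [div_mul_eq_mul_div, one_mul, div_le_iff₀ hN0]
    linarith
  have hloc : ∀ j ≤ N, ‖K 1‖ ≤ Real.exp ((3 ^ j - 1) * B) * ‖K (p j)‖ →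
      (∀ u : ℂ, ‖u - p j‖ ≤ (1 / 2000) / 2 → ‖K (p j)‖ ≤ Real.exp (2 * (3 ^ j * B)) * ‖K u‖) ∧
      ‖logDeriv K (p j)‖ ≤ 4 * (3 ^ j * B) / (1 / 2000) := by
    intro j hj hind
    apply step (by norm_num) (by positivity)
    · intro u hu
      obtain ⟨c1, c2, c3⟩ := hball j hj u hu
      exact (hK u c1 c2 c3).1.differentiableWithinAt
    · intro u hu
      obtain ⟨c1, c2, c3⟩ := hball j hj u hu
      exact (hK u c1 c2 c3).2.1
    · intro u hu
      obtain ⟨c1, c2, c3⟩ := hball j hj u hu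
      calc ‖K u‖ ≤ Real.exp B * ‖K 1‖ := (hK u c1 c2 c3).2.2
        _ ≤ Real.exp B * (Real.exp ((3 ^ j - 1) * B) * ‖K (p j)‖) := by gcongr
        _ = Real.exp (3 ^ j * B) * ‖K (p j)‖ := by
            rw [← mul_assoc, ← Real.exp_add]
            congr 2
            ring
  have hind : ∀ j ≤ N, ‖K 1‖ ≤ Real.exp ((3 ^ j - 1) * B) * ‖K (p j)‖ := by
    intro j
    induction j with
    | zero =>
      intro _
      have : p 0 = 1 := by rw [hp]; simp
      rw [this]
      simp
    | succ j ih =>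
      intro hj
      have h5 := ih (by omega)
      have h6 := (hloc j (by omega) h5).1 (p (j + 1)) (hdist j)
      calc ‖K 1‖ ≤ Real.exp ((3 ^ j - 1) * B) * ‖K (p j)‖ := h5
        _ ≤ Real.exp ((3 ^ j - 1) * B) * (Real.exp (2 * (3 ^ j * B)) * ‖K (p (j + 1))‖) := by gcongr
        _ = _ := by
            rw [← mul_assoc, ← Real.exp_add]
            congr 2
            ring
  have hfin := (hloc N le_rfl (hind N le_rfl)).2
  have hpN : p N = z := by
    rw [hp]
    simp only
    rw [div_self hN0.ne']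
    simp
  rw [hpN] at hfin
  calc ‖logDeriv K z‖ ≤ 4 * (3 ^ N * B) / (1 / 2000) := hfin
    _ = 8000 * 3 ^ N * B := by ring

theorem shar : SHar := by
  obtain ⟨N, hN⟩ : ∃ N : ℕ, 164000 ≤ N := ⟨164000, le_rfl⟩
  refine ⟨8000 * 3 ^ N, by positivity, ?_⟩
  intro B K hB hK z h1 h2 h3
  apply le_of_forall_pos_le_add
  intro ε hε
  have hC : (0:ℝ) < 8000 * 3 ^ N := by positivity
  have hB' : 0 < B + ε / (8000 * 3 ^ N) := by positivity
  have := har_pos hN hB' (K := K) (by
    intro u c1 c2 c3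
    obtain ⟨d1, d2, d3⟩ := hK u c1 c2 c3
    refine ⟨d1, d2, d3.trans ?_⟩
    gcongr
    have : 0 ≤ ε / (8000 * 3 ^ N) := by positivity
    linarith) z h1 h2 h3
  calc ‖logDeriv K z‖ ≤ 8000 * 3 ^ N * (B + ε / (8000 * 3 ^ N)) := this
    _ = _ := by field_simp

end Pool.Agent.W688.SD
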