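import Pool.Agent.H24R2.DZ.Spec

/-!
SAN: mean square of `ζ M - b_1`.
-/

set_option autoImplicit false

namespace Pool.Agent.W688.SD

open Complex Filter Topology Set MeasureTheory
open Pool.Agent.H24R2.DZ

lemma ray_norm {δ x : ℝ} (hx : 0 < x) : ‖ray δ x‖ = x := by
  unfold ray
  rw [norm_mul, Complex.norm_real, Real.norm_of_nonneg hx.le, mul_comm I, Complex.norm_exp_ofReal_mul_I, mul_one]

lemma ray_re (δ x : ℝ) : (ray δ x).re = x * Real.sin δ := by
  unfold ray
  rw [mul_comm I, Complex.re_ofReal_mul, Complex.exp_ofReal_mul_I_re, Real.cos_pi_div_two_sub]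

lemma ray_cont (δ : ℝ) : Continuous (ray δ) := by
  unfold ray
  fun_prop

lemma ff_small {z : ℂ} (h0 : z ≠ 0) (h1 : ‖z‖ ≤ 1 / 2) : ‖ff z‖ ≤ 2 := by
  have hz : 0 < ‖z‖ := norm_pos_iff.2 h0
  have h2 := Complex.norm_exp_sub_one_sub_id_le (x := z) (by linarith)
  have h3 : ‖z‖ / 2 ≤ ‖cexp z - 1‖ := by
    have h4 : ‖z‖ ≤ ‖cexp z - 1‖ + ‖cexp z - 1 - z‖ := by
      have h5 : z = (cexp z - 1) - (cexp z - 1 - z) := by ring
      calc ‖z‖ = ‖(cexp z - 1) - (cexp z - 1 - z)‖ := by rw [← h5]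
        _ ≤ _ := norm_sub_le _ _
    nlinarith
  have h6 : cexp z - 1 ≠ 0 := by
    intro h
    rw [h, norm_zero] at h3
    linarith
  unfold ff
  have h7 : 1 / (cexp z - 1) - 1 / z = -(cexp z - 1 - z) / ((cexp z - 1) * z) := by
    field_simp
    ring
  rw [h7, norm_div, norm_neg, norm_mul, div_le_iff₀ (by positivity)]
  nlinarith

lemma exp_sub_one_lower {z : ℂ} (_hz : 0 < z.re) : z.re ≤ ‖cexp z - 1‖ := by
  have h1 := norm_sub_norm_le (cexp z) 1
  rw [norm_one, Complex.norm_exp] at h1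
  have := Real.add_one_le_exp z.re
  linarith

lemma ff_large {z : ℂ} {s : ℝ} (hs : 0 < s) (hz0 : 0 < ‖z‖) (hz : z.re = ‖z‖ * s) :
    ‖ff z‖ ≤ (1 / s + 1) / ‖z‖ := by
  have hre : 0 < z.re := by rw [hz]; positivity
  have h1 := exp_sub_one_lower hre
  unfold ff
  calc ‖1 / (cexp z - 1) - 1 / z‖ ≤ ‖1 / (cexp z - 1)‖ + ‖1 / z‖ := norm_sub_le _ _
    _ = 1 / ‖cexp z - 1‖ + 1 / ‖z‖ := by rw [norm_div, norm_div, norm_one]
    _ ≤ 1 / (‖z‖ * s) + 1 / ‖z‖ := by
        rw [← hz]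
        gcongr
    _ = _ := by field_simp

lemma ff_all {z : ℂ} {s : ℝ} (hs : 0 < s) (hz0 : 0 < ‖z‖) (hz : z.re = ‖z‖ * s) :
    ‖ff z‖ ≤ 2 * (1 / s + 1) := by
  have hs' : 0 < 1 / s := by positivity
  rcases le_total ‖z‖ (1 / 2) with h | h
  · have := ff_small (norm_pos_iff.1 hz0) h
    linarith
  · refine (ff_large hs hz0 hz).trans ?_
    rw [div_le_iff₀ hz0]
    nlinarith

/-- bounds for `GF` on the ray -/
lemma GF_bd {δ : ℝ} (hδ : 0 < δ) (hδ2 : δ < Real.pi / 2) (y : ℕ) (b : ℕ → ℂ) :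
    ∃ C : ℝ, 0 < C ∧ ContinuousOn (fun x : ℝ => GF y b (ray δ x)) (Ioi 0) ∧
      (∀ x : ℝ, 0 < x → ‖GF y b (ray δ x)‖ ≤ C) ∧ (∀ x : ℝ, 0 < x → ‖GF y b (ray δ x)‖ ≤ C / x) := by
  set s := Real.sin δ with hs
  have hs0 : 0 < s := Real.sin_pos_of_pos_of_lt_pi hδ (by linarith [Real.pi_pos])
  have hs' : 0 < 1 / s := by positivity
  set D : ℝ := 1 / s + 1 with hD
  have hD0 : 0 < D := by positivity
  set B : ℝ := (∑ h ∈ Finset.Icc 1 y, ‖b h‖) + ‖b 1‖ with hB
  have hB0 : 0 ≤ B := by positivity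
  have hre : ∀ x : ℝ, 0 < x → 0 < (ray δ x).re := by
    intro x hx
    rw [ray_re]; positivity
  have hhre : ∀ (h : ℕ) (x : ℝ), 1 ≤ h → 0 < x → ((h : ℂ) * ray δ x).re = ‖(h : ℂ) * ray δ x‖ * s ∧
      ‖(h : ℂ) * ray δ x‖ = h * x := by
    intro h x _ hx
    have e1 : ‖(h : ℂ) * ray δ x‖ = h * x := by
      rw [norm_mul, ray_norm hx, Complex.norm_natCast]
    refine ⟨?_, e1⟩
    rw [e1, ← Complex.ofReal_natCast, Complex.re_ofReal_mul, ray_re]
    ring
  have hhpos : ∀ (h : ℕ) (x : ℝ), 1 ≤ h → 0 < x → 0 < ‖(h : ℂ) * ray δ x‖ := by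
    intro h x hh hx
    rw [(hhre h x hh hx).2]
    have : (0:ℝ) < h := by exact_mod_cast hh
    positivity
  refine ⟨2 * D * B + 1, by positivity, ?_, ?_, ?_⟩
  · unfold GF
    apply ContinuousOn.sub
    · apply continuousOn_finsetSum
      intro h hh
      apply ContinuousOn.mul continuousOn_const
      unfold ff
      have hc := ray_cont δ
      apply ContinuousOn.sub
      · apply ContinuousOn.div continuousOn_const (by fun_prop)
        intro x hx
        have hh1 := (Finset.mem_Icc.1 hh).1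
        have h1 : 0 < ((h : ℂ) * ray δ x).re := by
          rw [(hhre h x hh1 hx).1]
          have := hhpos h x hh1 hx
          positivity
        have h2 := exp_sub_one_lower h1
        intro h3
        rw [h3, norm_zero] at h2
        linarith
      · apply ContinuousOn.div continuousOn_const (by fun_prop)
        intro x hx
        have hh1 := (Finset.mem_Icc.1 hh).1
        exact norm_pos_iff.1 (hhpos h x hh1 hx)
    · apply Continuous.continuousOn
      have hc := ray_cont δ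
      fun_prop
  · intro x hx
    unfold GF
    have h1 : ‖∑ h ∈ Finset.Icc 1 y, b h * ff (h * ray δ x)‖ ≤ ∑ h ∈ Finset.Icc 1 y, ‖b h‖ * (2 * D) := by
      refine (norm_sum_le _ _).trans (Finset.sum_le_sum fun h hh => ?_)
      rw [norm_mul]
      gcongr
      have hh1 := (Finset.mem_Icc.1 hh).1
      exact ff_all hs0 (hhpos h x hh1 hx) (hhre h x hh1 hx).1
    have h2 : ‖b 1 * cexp (-(ray δ x))‖ ≤ ‖b 1‖ * (2 * D) := by
      rw [norm_mul]
      gcongr
      rw [Complex.norm_exp, Complex.neg_re]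
      have h3 : Real.exp (-(ray δ x).re) ≤ 1 := by
        rw [Real.exp_le_one_iff]
        linarith [hre x hx]
      linarith
    calc _ ≤ ‖∑ h ∈ Finset.Icc 1 y, b h * ff (h * ray δ x)‖ + ‖b 1 * cexp (-(ray δ x))‖ := norm_sub_le _ _
      _ ≤ (∑ h ∈ Finset.Icc 1 y, ‖b h‖ * (2 * D)) + ‖b 1‖ * (2 * D) := add_le_add h1 h2
      _ = 2 * D * B := by rw [← Finset.sum_mul, hB]; ring
      _ ≤ _ := by linarith
  · intro x hx
    unfold GF
    have h1 : ‖∑ h ∈ Finset.Icc 1 y, b h * ff (h * ray δ x)‖ ≤ ∑ h ∈ Finset.Icc 1 y, ‖b h‖ * (D / x) := by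
      refine (norm_sum_le _ _).trans (Finset.sum_le_sum fun h hh => ?_)
      rw [norm_mul]
      gcongr
      have hh1 := (Finset.mem_Icc.1 hh).1
      refine (ff_large hs0 (hhpos h x hh1 hx) (hhre h x hh1 hx).1).trans ?_
      rw [(hhre h x hh1 hx).2]
      have : (1:ℝ) ≤ h := by exact_mod_cast hh1
      gcongr
      nlinarith
    have h2 : ‖b 1 * cexp (-(ray δ x))‖ ≤ ‖b 1‖ * (D / x) := by
      rw [norm_mul]
      gcongr
      rw [Complex.norm_exp, Complex.neg_re, ray_re, Real.exp_neg, ← one_div]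
      have h4 := Real.add_one_le_exp (x * s)
      calc 1 / Real.exp (x * s) ≤ 1 / (x * s) := by
            gcongr
            linarith
        _ = (1 / s) / x := by field_simp
        _ ≤ D / x := by gcongr; linarith
    calc _ ≤ ‖∑ h ∈ Finset.Icc 1 y, b h * ff (h * ray δ x)‖ + ‖b 1 * cexp (-(ray δ x))‖ := norm_sub_le _ _
      _ ≤ (∑ h ∈ Finset.Icc 1 y, ‖b h‖ * (D / x)) + ‖b 1‖ * (D / x) := add_le_add h1 h2
      _ = D * B / x := by rw [← Finset.sum_mul, hB]; ring
      _ ≤ _ := by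
          gcongr
          nlinarith

/-- integrability with the weight -/
lemma sq_int {F : ℝ → ℂ} {C σ : ℝ} (hF : ContinuousOn F (Ioi 0)) (hσ : 1 / 2 ≤ σ) (hσ1 : σ ≤ 9 / 10)
    (h1 : ∀ x : ℝ, 0 < x → ‖F x‖ ≤ C) (h2 : ∀ x : ℝ, 0 < x → ‖F x‖ ≤ C / x) :
    IntegrableOn (fun x : ℝ => ‖F x‖ ^ 2 * x ^ (2 * σ - 1)) (Ioi 0) := by
  have hC : 0 ≤ C := (norm_nonneg _).trans (h1 1 one_pos)
  have hcont : ContinuousOn (fun x : ℝ => ‖F x‖ ^ 2 * x ^ (2 * σ - 1)) (Ioi 0) := by
    apply ContinuousOn.mul (hF.norm.pow 2)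
    intro x hx
    exact (Real.continuousAt_rpow_const x _ (Or.inl (ne_of_gt hx))).continuousWithinAt
  have hu : Ioi (0:ℝ) = Ioc 0 1 ∪ Ioi 1 := (Ioc_union_Ioi_eq_Ioi zero_le_one).symm
  rw [hu]
  apply IntegrableOn.union
  · have hd : IntegrableOn (fun _ : ℝ => C ^ 2) (Ioc 0 1) := integrableOn_const (by simp)
    refine Integrable.mono' hd ?_ ?_
    · exact (hcont.mono (fun x hx => hx.1)).aestronglyMeasurable measurableSet_Ioc
    · filter_upwards [self_mem_ae_restrict measurableSet_Ioc] with x hx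
      have hx0 : 0 < x := hx.1
      rw [Real.norm_of_nonneg (by positivity)]
      calc ‖F x‖ ^ 2 * x ^ (2 * σ - 1) ≤ C ^ 2 * 1 := by
            have a1 := h1 x hx0
            have a2 : x ^ (2 * σ - 1) ≤ 1 := Real.rpow_le_one hx0.le hx.2 (by linarith)
            gcongr
        _ = C ^ 2 := mul_one _
  · have hd : IntegrableOn (fun x : ℝ => C ^ 2 * x ^ (2 * σ - 3)) (Ioi 1) :=
      (integrableOn_Ioi_rpow_of_lt (by linarith) one_pos).const_mul _
    refine Integrable.mono' hd ?_ ?_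
    · exact (hcont.mono (Ioi_subset_Ioi zero_le_one)).aestronglyMeasurable measurableSet_Ioi
    · filter_upwards [self_mem_ae_restrict measurableSet_Ioi] with x hx
      have hx0 : 0 < x := lt_trans one_pos hx
      rw [Real.norm_of_nonneg (by positivity)]
      calc ‖F x‖ ^ 2 * x ^ (2 * σ - 1) ≤ (C / x) ^ 2 * x ^ (2 * σ - 1) := by
            have a1 := h2 x hx0
            gcongr
        _ = C ^ 2 * x ^ (2 * σ - 3) := by
            have e1 : x ^ (2 * σ - 3) = x ^ (2 * σ - 1) / x ^ 2 := by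
              rw [← Real.rpow_two, ← Real.rpow_sub hx0]
              congr 1
              ring
            rw [e1]
            field_simp

lemma tail_int {σ X0 : ℝ} (hσ1 : σ ≤ 9 / 10) (hX : 1 ≤ X0) :
    IntegrableOn (fun x : ℝ => x ^ (2 * σ - 3)) (Ioi X0) ∧ ∫ x in Ioi X0, x ^ (2 * σ - 3) ≤ 5 := by
  have hX0 : 0 < X0 := by linarith
  refine ⟨integrableOn_Ioi_rpow_of_lt (by linarith) hX0, ?_⟩
  rw [integral_Ioi_rpow_of_lt (by linarith) hX0]
  have e : 2 * σ - 3 + 1 = -(2 - 2 * σ) := by ring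
  rw [e, neg_div_neg_eq, div_le_iff₀ (by linarith)]
  have : X0 ^ (-(2 - 2 * σ)) ≤ 1 := Real.rpow_le_one_of_one_le_of_nonpos hX (by linarith)
  linarith

lemma cc_bd {y : ℕ} {b : ℕ → ℂ} (hb : ∀ h, y < h → b h = 0) (n : ℕ) :
    ‖cc b n‖ ≤ ∑ h ∈ Finset.Icc 1 y, ‖b h‖ := by
  unfold cc
  refine (norm_sum_le _ _).trans ?_
  have h1 : ∑ h ∈ n.divisors, ‖b h‖ = ∑ h ∈ n.divisors.filter (fun h => h ≤ y), ‖b h‖ := by
    symm
    apply Finset.sum_filter_of_ne
    intro h _ hne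
    by_contra hh
    exact hne (by rw [hb h (not_le.1 hh), norm_zero])
  rw [h1]
  apply Finset.sum_le_sum_of_subset_of_nonneg
  · intro h hh
    rw [Finset.mem_filter] at hh
    rw [Finset.mem_Icc]
    exact ⟨Nat.pos_of_mem_divisors hh.1, hh.2⟩
  · intro i _ _
    exact norm_nonneg _

theorem san (h1 : SMelG) (h2 : SPlan) (h3 : SGamLow) (h4 : SBig) (h5 : SRep) (h6 : SSmall) : SAN := by
  obtain ⟨c, T1, hc, hT1, h3⟩ := h3
  obtain ⟨C4, hC4, h4⟩ := h4
  obtain ⟨C6, hC6, h6⟩ := h6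
  have hpi := Real.pi_pos
  have hpi3 := Real.pi_gt_three
  refine ⟨2 * Real.pi / c * (2 * C4 + C6 + 10), max T1 100, by positivity,
    le_trans (by norm_num) (le_max_right _ _), ?_⟩
  intro T σ y b hT hy hyT hσ hσ1 hb
  have hTT1 : T1 ≤ T := (le_max_left _ _).trans hT
  have hT100 : 100 ≤ T := (le_max_right _ _).trans hT
  have hT0 : 0 < T := by linarith
  have hyR : (1:ℝ) ≤ y := by exact_mod_cast hy
  set δ : ℝ := 1 / T with hδ
  have hδ0 : 0 < δ := by positivity
  have hδ1 : δ ≤ 1 / 10 := by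
    rw [hδ, div_le_div_iff₀ hT0 (by norm_num)]; linarith
  have hδ2 : δ < Real.pi / 2 := by linarith
  set A1 : ℝ := ∑' n : ℕ, if n ≤ 1 then 0 else ‖cc b n‖ ^ 2 * (n : ℝ) ^ (-(2 * σ)) * Real.exp (-(n / T)) with hA1
  set A2 : ℝ := ∑ k ∈ Finset.Icc 1 y, (k : ℝ) * (1 + Real.log k) * ‖rr y b k‖ ^ 2 with hA2
  set A3 : ℝ := ∑ h ∈ Finset.Icc 1 y, ‖b h‖ ^ 2 with hA3
  have hA10 : 0 ≤ A1 := by
    apply tsum_nonneg
    intro n
    split_ifs
    · exact le_rfl
    · positivity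
  have hA2t : ∀ k ∈ Finset.Icc 1 y, 0 ≤ (k : ℝ) * (1 + Real.log k) * ‖rr y b k‖ ^ 2 := by
    intro k hk
    have hk1 : (1:ℝ) ≤ k := by exact_mod_cast (Finset.mem_Icc.1 hk).1
    have := Real.log_nonneg hk1
    positivity
  have hA20 : 0 ≤ A2 := Finset.sum_nonneg hA2t
  have hA30 : 0 ≤ A3 := Finset.sum_nonneg fun h _ => by positivity
  have hrr : ‖rr y b 1‖ ^ 2 ≤ A2 := by
    have := Finset.single_le_sum hA2t (Finset.mem_Icc.2 ⟨le_rfl, hy⟩)
    simpa using this
  obtain ⟨C, hC, hcont, hb1, hb2⟩ := GF_bd hδ0 hδ2 y b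
  set F : ℝ → ℂ := fun x => GF y b (ray δ x) with hF
  have hint := sq_int hcont hσ hσ1 hb1 hb2
  set X0 : ℝ := 2 * Real.pi / Real.cos δ with hX0
  have hcos : 0 < Real.cos δ := Real.cos_pos_of_mem_Ioo ⟨by linarith, hδ2⟩
  have hX01 : 1 ≤ X0 := by
    rw [hX0, le_div_iff₀ hcos]
    have := Real.cos_le_one δ
    linarith
  have hX00 : 0 < X0 := by linarith
  -- small range
  have hyc : δ * (y : ℝ) ^ 10 ≤ 1 / 100 := by
    rw [hδ, div_mul_eq_mul_div, one_mul, div_le_div_iff₀ hT0 (by norm_num), one_mul]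
    rcases hy.eq_or_lt with h | h
    · rw [← h]; norm_num; linarith
    · have h2y : (2:ℝ) ≤ y := by exact_mod_cast h
      have e1 : (y:ℝ) ^ 100 = (y:ℝ) ^ 10 * (y:ℝ) ^ 90 := by rw [← pow_add]
      have e2 : (100:ℝ) ≤ (y:ℝ) ^ 90 := by
        calc (100:ℝ) ≤ 2 ^ 90 := by norm_num
          _ ≤ (y:ℝ) ^ 90 := by gcongr
      calc (y:ℝ) ^ 10 * 100 ≤ (y:ℝ) ^ 10 * (y:ℝ) ^ 90 := by gcongr
        _ = (y:ℝ) ^ 100 := e1.symm
        _ ≤ T := hyT
  have hsmall := h6 δ σ y b hδ0 hy hyc hσ hσ1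
  have hδinv : δ⁻¹ = T := by rw [hδ, one_div, inv_inv]
  rw [hδinv] at hsmall
  -- large range
  set c' : ℕ → ℂ := fun n => if n ≤ 1 then 0 else cc b n with hc'
  set G : ℝ → ℂ := fun x => ∑' n : ℕ, c' n * cexp (-(n * ray δ x)) with hG
  have hrep : ∀ x : ℝ, 0 < x → G x = F x + rr y b 1 / ray δ x := by
    intro x hx
    have hre : 0 < (ray δ x).re := by
      rw [ray_re]
      have := Real.sin_pos_of_pos_of_lt_pi hδ0 (by linarith)
      positivity
    have := h5 y b (ray δ x) hb hy hre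
    rw [hF]
    simp only
    rw [this]
    ring
  have hbig := h4 δ σ (∑ h ∈ Finset.Icc 1 y, ‖b h‖) c' hδ0 hδ1 hσ hσ1 (by
    intro n
    rw [hc']
    simp only
    split_ifs
    · rw [norm_zero]; positivity
    · exact cc_bd hb n) (by simp [hc'])
  have hts : ∑' n : ℕ, ‖c' n‖ ^ 2 * (n * δ) ^ (-(2 * σ)) * Real.exp (-(n * δ)) = T ^ (2 * σ) * A1 := by
    rw [hA1, ← tsum_mul_left]
    congr 1
    ext n
    rw [hc']
    simp only
    split_ifs with hn
    · simp
    · have hn0 : (0:ℝ) < n := by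
        have : 0 < n := by omega
        exact_mod_cast this
      have e1 : ((n:ℝ) * δ) ^ (-(2 * σ)) = T ^ (2 * σ) * (n:ℝ) ^ (-(2 * σ)) := by
        rw [hδ, mul_one_div, Real.div_rpow hn0.le hT0.le, Real.rpow_neg hT0.le]
        field_simp
      rw [e1, hδ, mul_one_div]
      ring
  rw [hts] at hbig
  -- the function on the large range
  have hrayc : ContinuousOn (fun x : ℝ => rr y b 1 / ray δ x) (Ioi 0) := by
    apply ContinuousOn.div continuousOn_const (ray_cont δ).continuousOn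
    intro x hx
    have := ray_norm (δ := δ) (show 0 < x from hx)
    intro h
    rw [h, norm_zero] at this
    have hx' : (0:ℝ) < x := hx
    linarith
  have hGint : IntegrableOn (fun x : ℝ => ‖G x‖ ^ 2 * x ^ (2 * σ - 1)) (Ioi X0) := by
    have hGc : ContinuousOn G (Ioi X0) := by
      have h7 : ContinuousOn (fun x : ℝ => F x + rr y b 1 / ray δ x) (Ioi X0) :=
        (hcont.add hrayc).mono (Ioi_subset_Ioi hX00.le)
      exact h7.congr fun x hx => hrep x (hX00.trans hx)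
    have hd : IntegrableOn (fun x : ℝ => (C + ‖rr y b 1‖) ^ 2 * x ^ (2 * σ - 3)) (Ioi X0) :=
      (tail_int hσ1 hX01).1.const_mul _
    refine Integrable.mono' hd ?_ ?_
    · apply ContinuousOn.aestronglyMeasurable _ measurableSet_Ioi
      apply ContinuousOn.mul (hGc.norm.pow 2)
      intro x hx
      exact (Real.continuousAt_rpow_const x _ (Or.inl (ne_of_gt (hX00.trans hx)))).continuousWithinAt
    · filter_upwards [self_mem_ae_restrict measurableSet_Ioi] with x hx
      have hx0 : 0 < x := hX00.trans hx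
      rw [Real.norm_of_nonneg (by positivity)]
      have e1 : x ^ (2 * σ - 3) = x ^ (2 * σ - 1) / x ^ 2 := by
        rw [← Real.rpow_two, ← Real.rpow_sub hx0]
        congr 1
        ring
      have e2 : ‖G x‖ ≤ (C + ‖rr y b 1‖) / x := by
        rw [hrep x hx0]
        refine (norm_add_le _ _).trans ?_
        rw [norm_div, ray_norm hx0, add_div]
        exact add_le_add (hb2 x hx0) le_rfl
      calc ‖G x‖ ^ 2 * x ^ (2 * σ - 1) ≤ ((C + ‖rr y b 1‖) / x) ^ 2 * x ^ (2 * σ - 1) := by gcongr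
        _ = _ := by rw [e1]; field_simp
  have hlarge : ∫ x in Ioi X0, ‖F x‖ ^ 2 * x ^ (2 * σ - 1) ≤ 2 * (C4 * (T ^ (2 * σ) * A1)) + 10 * A2 := by
    have htail := tail_int (σ := σ) hσ1 hX01
    calc ∫ x in Ioi X0, ‖F x‖ ^ 2 * x ^ (2 * σ - 1)
        ≤ ∫ x in Ioi X0, (2 * (‖G x‖ ^ 2 * x ^ (2 * σ - 1)) + 2 * ‖rr y b 1‖ ^ 2 * x ^ (2 * σ - 3)) := by
          apply setIntegral_mono_on (hint.mono_set (Ioi_subset_Ioi hX00.le))
            ((hGint.const_mul 2).add (htail.1.const_mul _)) measurableSet_Ioi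
          intro x hx
          have hx0 : 0 < x := hX00.trans hx
          have e1 : x ^ (2 * σ - 3) = x ^ (2 * σ - 1) / x ^ 2 := by
            rw [← Real.rpow_two, ← Real.rpow_sub hx0]
            congr 1
            ring
          have e2 : ‖F x‖ ≤ ‖G x‖ + ‖rr y b 1‖ / x := by
            have : F x = G x - rr y b 1 / ray δ x := by rw [hrep x hx0]; ring
            rw [this]
            refine (norm_sub_le _ _).trans ?_
            rw [norm_div, ray_norm hx0]
          have e3 : ‖F x‖ ^ 2 ≤ 2 * ‖G x‖ ^ 2 + 2 * (‖rr y b 1‖ / x) ^ 2 := by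
            have n1 := norm_nonneg (F x)
            have := pow_le_pow_left₀ n1 e2 2
            nlinarith [sq_nonneg (‖G x‖ - ‖rr y b 1‖ / x)]
          have e4 : 0 ≤ x ^ (2 * σ - 1) := by positivity
          calc ‖F x‖ ^ 2 * x ^ (2 * σ - 1) ≤ (2 * ‖G x‖ ^ 2 + 2 * (‖rr y b 1‖ / x) ^ 2) * x ^ (2 * σ - 1) := by
                gcongr
            _ = 2 * (‖G x‖ ^ 2 * x ^ (2 * σ - 1)) + 2 * ‖rr y b 1‖ ^ 2 * x ^ (2 * σ - 3) := by
                rw [e1]; field_simp
      _ = 2 * (∫ x in Ioi X0, ‖G x‖ ^ 2 * x ^ (2 * σ - 1)) +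
            2 * ‖rr y b 1‖ ^ 2 * ∫ x in Ioi X0, x ^ (2 * σ - 3) := by
          rw [integral_add (hGint.const_mul 2) (htail.1.const_mul _), integral_const_mul, integral_const_mul]
      _ ≤ 2 * (C4 * (T ^ (2 * σ) * A1)) + 2 * A2 * 5 := by
          have e5 : 0 ≤ ∫ x in Ioi X0, x ^ (2 * σ - 3) := by
            apply setIntegral_nonneg measurableSet_Ioi
            intro x hx
            have hx0 : 0 < x := hX00.trans hx
            positivity
          have e6 := htail.2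
          gcongr
      _ = _ := by ring
  have htotal : ∫ x in Ioi (0:ℝ), ‖F x‖ ^ 2 * x ^ (2 * σ - 1) ≤
      C6 * (T * A2 + (y : ℝ) ^ 20 * A3) + (2 * (C4 * (T ^ (2 * σ) * A1)) + 10 * A2) := by
    have hu : Ioi (0:ℝ) = Ioc 0 X0 ∪ Ioi X0 := (Ioc_union_Ioi_eq_Ioi hX00.le).symm
    rw [hu, setIntegral_union (by
      rw [Set.disjoint_left]
      intro x hx hx'
      exact absurd hx.2 (not_le.2 hx')) measurableSet_Ioi (hint.mono_set (fun x hx => hx.1))
      (hint.mono_set (Ioi_subset_Ioi hX00.le))]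
    exact add_le_add hsmall hlarge
  -- Plancherel
  have hplan := h2 F C σ (T / 4) (4 * T) hcont (by linarith) (by linarith) hb1 hb2 (by linarith)
  set Z : ℝ → ℂ := fun t => riemannZeta ((σ : ℂ) + t * I) * MM y b ((σ : ℂ) + t * I) - b 1 with hZ
  set E : ℝ → ℂ := fun t => cexp (-(I * ((Real.pi / 2 - 1 / T : ℝ) : ℂ)) * ((σ : ℂ) + t * I)) *
    Complex.Gamma ((σ : ℂ) + t * I) with hE
  have hmel : ∀ t : ℝ, ∫ x in Ioi (0 : ℝ), F x * (x : ℂ) ^ ((σ : ℂ) + t * I - 1) = E t * Z t := by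
    intro t
    exact (h1 δ σ t y b hδ0 hδ2 (by linarith) (by linarith)).2
  simp_rw [hmel] at hplan
  have hline : Continuous (fun t : ℝ => (σ : ℂ) + t * I) := by fun_prop
  have hZc : ContinuousOn Z (uIcc (T / 4) (4 * T)) := by
    rw [uIcc_of_le (by linarith)]
    intro t ht
    apply ContinuousAt.continuousWithinAt
    have hne : (σ : ℂ) + t * I ≠ 1 := by
      intro h
      have := congrArg Complex.im h
      simp at this
      linarith [ht.1]
    rw [hZ]
    apply ContinuousAt.sub _ continuousAt_const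
    apply ContinuousAt.mul
    · exact ContinuousAt.comp (f := fun t : ℝ => (σ : ℂ) + t * I) (g := riemannZeta)
        (differentiableAt_riemannZeta hne).continuousAt hline.continuousAt
    · unfold MM
      apply Continuous.continuousAt
      apply continuous_finsetSum
      intro h hh
      apply continuous_const.mul
      apply Continuous.const_cpow (by fun_prop)
      left
      have : h ≠ 0 := by
        have := (Finset.mem_Icc.1 hh).1
        omega
      exact_mod_cast this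
  have hEc : ContinuousOn E (uIcc (T / 4) (4 * T)) := by
    apply Continuous.continuousOn
    rw [hE]
    apply Continuous.mul (by fun_prop)
    rw [continuous_iff_continuousAt]
    intro t
    refine ContinuousAt.comp (f := fun t : ℝ => (σ : ℂ) + t * I) (g := Complex.Gamma) ?_ hline.continuousAt
    apply (Complex.differentiableAt_Gamma _ _).continuousAt
    intro m h
    have := congrArg Complex.re h
    simp at this
    have hm : (0:ℝ) ≤ m := Nat.cast_nonneg m
    linarith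
  have hmono : c * T ^ (2 * σ - 1) * ∫ t in (T / 4)..(4 * T), ‖Z t‖ ^ 2 ≤
      ∫ t in (T / 4)..(4 * T), ‖E t * Z t‖ ^ 2 := by
    rw [← intervalIntegral.integral_const_mul]
    apply intervalIntegral.integral_mono_on (by linarith)
    · exact (ContinuousOn.mul continuousOn_const (hZc.norm.pow 2)).intervalIntegrable
    · exact ((hEc.mul hZc).norm.pow 2).intervalIntegrable
    · intro t ht
      have h7 := h3 T t σ hTT1 ht.1 ht.2 hσ hσ1
      rw [norm_mul, mul_pow]
      gcongr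
  have hy20 : (y:ℝ) ^ 20 ≤ T * T ^ (-(1 / 2) : ℝ) := by
    have e1 : T * T ^ (-(1 / 2) : ℝ) = Real.sqrt T := by
      rw [Real.sqrt_eq_rpow]
      have := Real.rpow_add hT0 1 (-(1 / 2))
      rw [Real.rpow_one] at this
      rw [← this]
      norm_num
    rw [e1]
    apply Real.le_sqrt_of_sq_le
    rw [← pow_mul]
    exact (pow_le_pow_right₀ hyR (by norm_num : 20 * 2 ≤ 100)).trans hyT
  -- assembling
  have hTp : 0 < T ^ (2 * σ - 1) := by positivity
  have e0 : T ^ (1 - 2 * σ) * T ^ (2 * σ - 1) = 1 := by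
    rw [← Real.rpow_add hT0]
    have : 1 - 2 * σ + (2 * σ - 1) = 0 := by ring
    rw [this, Real.rpow_zero]
  have e1 : T ^ (2 * σ) = T * T ^ (2 * σ - 1) := by
    have := Real.rpow_add hT0 1 (2 * σ - 1)
    rw [Real.rpow_one] at this
    rw [← this]
    congr 1
    ring
  have e2 : 1 ≤ T ^ (2 * σ - 1) := Real.one_le_rpow (by linarith) (by linarith)
  have hfin : c * T ^ (2 * σ - 1) * ∫ t in (T / 4)..(4 * T), ‖Z t‖ ^ 2 ≤ c * T ^ (2 * σ - 1) *
      (2 * Real.pi / c * (2 * C4 + C6 + 10) * T * (A1 + T ^ (1 - 2 * σ) * A2 + T ^ (-(1 / 2) : ℝ) * A3)) := by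
    calc _ ≤ 2 * Real.pi * (C6 * (T * A2 + (y : ℝ) ^ 20 * A3) + (2 * (C4 * (T ^ (2 * σ) * A1)) + 10 * A2)) := by
          refine (hmono.trans hplan).trans ?_
          gcongr
      _ ≤ 2 * Real.pi * ((2 * C4 + C6 + 10) * (T * T ^ (2 * σ - 1) * A1 + T * A2 +
            T ^ (2 * σ - 1) * (T * T ^ (-(1 / 2) : ℝ)) * A3)) := by
          gcongr
          rw [e1]
          have p1 : 0 ≤ T * T ^ (2 * σ - 1) * A1 := by positivity
          have p2 : 0 ≤ T * A2 := by positivity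
          have p3 : (y : ℝ) ^ 20 * A3 ≤ T ^ (2 * σ - 1) * (T * T ^ (-(1 / 2) : ℝ)) * A3 := by
            gcongr
            calc (y : ℝ) ^ 20 ≤ T * T ^ (-(1 / 2) : ℝ) := hy20
              _ = 1 * (T * T ^ (-(1 / 2) : ℝ)) := (one_mul _).symm
              _ ≤ T ^ (2 * σ - 1) * (T * T ^ (-(1 / 2) : ℝ)) := by
                  have : 0 ≤ T * T ^ (-(1 / 2) : ℝ) := by positivity
                  gcongr
          have p4 : A2 ≤ T * A2 := by nlinarith
          have p5 : 0 ≤ (y : ℝ) ^ 20 * A3 := by positivity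
          have p6 := mul_le_mul_of_nonneg_left p3 hC6.le
          nlinarith [mul_nonneg hC4.le p1, mul_nonneg hC6.le p1, mul_nonneg hC4.le p2, mul_nonneg hC6.le p2,
            mul_nonneg hC4.le (p5.trans p3), mul_nonneg hC6.le (p5.trans p3), p5.trans p3]
      _ = _ := by
          have e3 : c * T ^ (2 * σ - 1) * (2 * Real.pi / c * (2 * C4 + C6 + 10) * T *
              (A1 + T ^ (1 - 2 * σ) * A2 + T ^ (-(1 / 2) : ℝ) * A3)) =
              2 * Real.pi * (2 * C4 + C6 + 10) * T * (T ^ (2 * σ - 1) * A1 +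
              (T ^ (1 - 2 * σ) * T ^ (2 * σ - 1)) * A2 + T ^ (2 * σ - 1) * T ^ (-(1 / 2) : ℝ) * A3) := by
            field_simp
          rw [e3, e0]
          ring
  exact le_of_mul_le_mul_left hfin (by positivity)

end Pool.Agent.W688.SD
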