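import Pool.Agent.H24R2.DZ.Spec
import Mathlib.Analysis.Distribution.SchwartzSpace.Fourier

/-!
SFour: Fourier representation of the cut-off.
-/

set_option autoImplicit false

namespace Pool.Agent.W688.SD

open Complex Filter Topology Set MeasureTheory
open Pool.Agent.H24R2.DZ
open scoped FourierTransform ContDiff

/-- the symmetric cut-off -/
noncomputable def chi (θ u : ℝ) : ℂ :=
  ((Real.smoothTransition (2 - 2 * (u / θ)) * Real.smoothTransition (2 + 2 * (u / θ)) : ℝ) : ℂ)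

lemma chi_contDiff (θ : ℝ) : ContDiff ℝ ∞ (chi θ) := by
  unfold chi
  apply Complex.ofRealCLM.contDiff.comp
  apply ContDiff.mul
  · exact Real.smoothTransition.contDiff.comp (by fun_prop)
  · exact Real.smoothTransition.contDiff.comp (by fun_prop)

lemma chi_zero {θ u : ℝ} (hθ : 0 < θ) (hu : θ ≤ |u|) : chi θ u = 0 := by
  unfold chi
  rcases le_abs.1 hu with h | h
  · have h1 : 1 ≤ u / θ := by rw [le_div_iff₀ hθ]; linarith
    rw [Real.smoothTransition.zero_of_nonpos (x := 2 - 2 * (u / θ)) (by linarith)]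
    simp
  · have h1 : u / θ ≤ -1 := by rw [div_le_iff₀ hθ]; linarith
    rw [Real.smoothTransition.zero_of_nonpos (x := 2 + 2 * (u / θ)) (by linarith)]
    simp

lemma chi_eq {θ u : ℝ} (hθ : 0 < θ) (hu : 0 ≤ u) : chi θ u = ((ph (u / θ) : ℝ) : ℂ) := by
  unfold chi ph
  have h1 : 0 ≤ u / θ := by positivity
  rw [Real.smoothTransition.one_of_one_le (x := 2 + 2 * (u / θ)) (by linarith), mul_one]

lemma chi_tsupport {θ : ℝ} (hθ : 0 < θ) : tsupport (chi θ) ⊆ Icc (-θ) θ := by
  apply closure_minimal _ isClosed_Icc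
  intro u hu
  by_contra h
  apply hu
  apply chi_zero hθ
  rw [mem_Icc, not_and_or] at h
  rw [le_abs]
  rcases h with h | h
  · right; linarith
  · left; linarith

lemma chi_compact {θ : ℝ} (hθ : 0 < θ) : HasCompactSupport (chi θ) :=
  HasCompactSupport.of_support_subset_isCompact isCompact_Icc ((subset_tsupport _).trans (chi_tsupport hθ))

lemma chi_bound {θ : ℝ} (hθ : 0 < θ) : ∃ M : ℕ → ℝ, ∀ i u, ‖iteratedFDeriv ℝ i (chi θ) u‖ ≤ M i := by
  have h : ∀ i : ℕ, ∃ C : ℝ, ∀ u, ‖iteratedFDeriv ℝ i (chi θ) u‖ ≤ C := by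
    intro i
    have h1 : Continuous (iteratedFDeriv ℝ i (chi θ)) :=
      ((chi_contDiff θ).of_le (mod_cast le_top)).continuous_iteratedFDeriv'
    have h2 : HasCompactSupport (iteratedFDeriv ℝ i (chi θ)) := (chi_compact hθ).iteratedFDeriv i
    exact h1.bounded_above_of_compact_support h2
  choose M hM using h
  exact ⟨M, hM⟩

lemma exp_iter (c : ℂ) (j : ℕ) : iteratedDeriv j (fun u : ℝ => cexp (c * u)) =
    fun u : ℝ => c ^ j * cexp (c * u) := by
  induction j with
  | zero => simp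
  | succ j ih =>
    rw [iteratedDeriv_succ, ih]
    ext u
    have h1 : HasDerivAt (fun u : ℝ => cexp (c * u)) (cexp (c * u) * c) u := by
      have h2 : HasDerivAt (fun u : ℝ => c * (u : ℂ)) c u := by
        simpa using (Complex.ofRealCLM.hasDerivAt (x := u)).const_mul c
      exact h2.cexp
    rw [(h1.const_mul (c ^ j)).deriv]
    ring

/-- Fourier transforms of compactly supported functions -/
lemma fourier_bd {f : ℝ → ℂ} {θ C : ℝ} (hθ : 0 ≤ θ) (h0 : ∀ u, θ < |u| → f u = 0)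
    (hb : ∀ u, |u| ≤ θ → ‖f u‖ ≤ C) (ξ : ℝ) : ‖𝓕 f ξ‖ ≤ C * (2 * θ) := by
  rw [Real.fourier_real_eq_integral_exp_smul]
  have hC : ∀ v : ℝ, ‖cexp (((-2 * Real.pi * v * ξ : ℝ) : ℂ) * I) • f v‖ ≤
      (Icc (-θ) θ).indicator (fun _ => C) v := by
    intro v
    rw [norm_smul, Complex.norm_exp_ofReal_mul_I, one_mul]
    by_cases hv : |v| ≤ θ
    · rw [indicator_of_mem (show v ∈ Icc (-θ) θ from abs_le.1 hv)]
      exact hb v hv
    · rw [h0 v (not_le.1 hv), norm_zero, indicator_of_notMem]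
      intro h
      exact hv (abs_le.2 h)
  refine (norm_integral_le_of_norm_le (g := (Icc (-θ) θ).indicator (fun _ => C)) ?_
    (Eventually.of_forall hC)).trans (le_of_eq ?_)
  · rw [integrable_indicator_iff measurableSet_Icc]
    exact integrableOn_const (by simp)
  · rw [integral_indicator measurableSet_Icc, setIntegral_const, smul_eq_mul]
    simp only [measureReal_def, Real.volume_Icc]
    rw [ENNReal.toReal_ofReal (by linarith)]
    ring

theorem sfour : SFour := by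
  intro θ hθ hθ1
  obtain ⟨M, hM⟩ := chi_bound hθ
  set S : ℝ := ∑ i ∈ Finset.range 11, ((10 : ℕ).choose i : ℝ) * |M i| with hS
  have hS0 : 0 ≤ S := Finset.sum_nonneg fun i _ => by positivity
  refine ⟨2 ^ 10 * (1 + S) * Real.exp 1, by positivity, ?_⟩
  intro z
  set A : ℝ := (1 + ‖z‖) ^ 10 * (Real.exp 1 * Real.exp (θ * ‖z‖)) with hA
  have hA0 : 0 < A := by positivity
  set e : ℝ → ℂ := fun u => cexp ((1 - z) * u) with he
  set g : ℝ → ℂ := fun u => chi θ u * e u with hg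
  have hec : ContDiff ℝ ∞ e := (contDiff_const.mul Complex.ofRealCLM.contDiff).cexp
  have hN : ∀ m : ℕ, (m : ℕ∞ω) ≤ ∞ := fun m => mod_cast le_top
  have h10 : ((10 : ℕ) : ℕ∞ω) ≤ ∞ := hN 10
  have hgc : ContDiff ℝ ∞ g := (chi_contDiff θ).mul hec
  have hgs : HasCompactSupport g := (chi_compact hθ).mul_right
  have hgsub : tsupport g ⊆ Icc (-θ) θ := by
    refine (closure_mono ?_).trans (chi_tsupport hθ)
    intro u hu
    intro h
    apply hu
    rw [hg]
    simp only
    rw [h, zero_mul]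
  have hz1 : ‖1 - z‖ ≤ 1 + ‖z‖ := by
    have := norm_sub_le (1:ℂ) z
    rwa [norm_one] at this
  have heb : ∀ (j : ℕ) (u : ℝ), j ≤ 10 → |u| ≤ θ → ‖iteratedFDeriv ℝ j e u‖ ≤ A := by
    intro j u hj hu
    rw [norm_iteratedFDeriv_eq_norm_iteratedDeriv, he, exp_iter]
    simp only
    rw [norm_mul, norm_pow]
    have h1 : ‖1 - z‖ ^ j ≤ (1 + ‖z‖) ^ 10 := by
      calc ‖1 - z‖ ^ j ≤ (1 + ‖z‖) ^ j := by gcongr
        _ ≤ (1 + ‖z‖) ^ 10 := by
            apply pow_le_pow_right₀ _ hj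
            have := norm_nonneg z
            linarith
    have h2 : ‖cexp ((1 - z) * u)‖ ≤ Real.exp 1 * Real.exp (θ * ‖z‖) := by
      rw [Complex.norm_exp, ← Real.exp_add]
      apply Real.exp_le_exp.2
      calc ((1 - z) * (u : ℂ)).re ≤ ‖(1 - z) * (u : ℂ)‖ := Complex.re_le_norm _
        _ = ‖1 - z‖ * |u| := by rw [norm_mul, Complex.norm_real, Real.norm_eq_abs]
        _ ≤ (1 + ‖z‖) * θ := by gcongr
        _ ≤ 1 + θ * ‖z‖ := by nlinarith
    exact mul_le_mul h1 h2 (norm_nonneg _) (by positivity)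
  have hgb : ∀ u : ℝ, |u| ≤ θ → ‖g u‖ ≤ A := by
    intro u hu
    have h1 := heb 0 u (by norm_num) hu
    rw [norm_iteratedFDeriv_zero] at h1
    rw [hg]
    simp only
    rw [norm_mul]
    have h2 : ‖chi θ u‖ ≤ 1 := by
      unfold chi
      rw [Complex.norm_real, norm_mul, Real.norm_of_nonneg (Real.smoothTransition.nonneg _),
        Real.norm_of_nonneg (Real.smoothTransition.nonneg _)]
      exact mul_le_one₀ (Real.smoothTransition.le_one _) (Real.smoothTransition.nonneg _)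
        (Real.smoothTransition.le_one _)
    calc ‖chi θ u‖ * ‖e u‖ ≤ 1 * A := mul_le_mul h2 h1 (norm_nonneg _) zero_le_one
      _ = A := one_mul _
  have hgb10 : ∀ u : ℝ, |u| ≤ θ → ‖iteratedDeriv 10 g u‖ ≤ S * A := by
    intro u hu
    rw [← norm_iteratedFDeriv_eq_norm_iteratedDeriv]
    refine (norm_iteratedFDeriv_mul_le (N := ∞) (chi_contDiff θ) hec u (n := 10) h10).trans ?_
    rw [hS, Finset.sum_mul]
    apply Finset.sum_le_sum
    intro i hi
    have h1 : ‖iteratedFDeriv ℝ i (chi θ) u‖ ≤ |M i| := (hM i u).trans (le_abs_self _)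
    have h2 := heb (10 - i) u (by omega) hu
    gcongr
  have hg10z : ∀ u : ℝ, θ < |u| → iteratedDeriv 10 g u = 0 := by
    intro u hu
    by_contra h
    have h1 : iteratedFDeriv ℝ 10 g u ≠ 0 := by
      intro h2
      apply h
      rw [iteratedDeriv, h2]
      simp
    have h3 := hgsub (support_iteratedFDeriv_subset (𝕜 := ℝ) (f := g) 10 h1)
    rw [mem_Icc, ← abs_le] at h3
    linarith
  have hgz : ∀ u : ℝ, θ < |u| → g u = 0 := by
    intro u hu
    rw [hg]
    simp only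
    rw [chi_zero hθ hu.le, zero_mul]
  have hF0 : ∀ ξ, ‖𝓕 g ξ‖ ≤ A * (2 * θ) := fourier_bd hθ.le hgz hgb
  have hF10 : ∀ ξ, ‖𝓕 (iteratedDeriv 10 g) ξ‖ ≤ S * A * (2 * θ) := fourier_bd hθ.le hg10z hgb10
  have hFd : 𝓕 (iteratedDeriv 10 g) = fun x : ℝ => (2 * Real.pi * I * x) ^ 10 • (𝓕 g x) := by
    apply Real.fourier_iteratedDeriv (N := ⊤) hgc _ (mod_cast le_top)
    intro m _
    have hc : Continuous (iteratedDeriv m g) := hgc.continuous_iteratedDeriv m (mod_cast le_top)
    apply hc.integrable_of_hasCompactSupport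
    apply HasCompactSupport.of_support_subset_isCompact (K := Icc (-θ) θ) isCompact_Icc
    intro u hu
    apply hgsub
    apply support_iteratedFDeriv_subset (𝕜 := ℝ) (f := g) m
    intro h2
    apply hu
    rw [iteratedDeriv, h2]
    simp
  -- Schwartz functions
  have hFc : Continuous (𝓕 g) := by
    have h1 := (𝓕 (hgs.toSchwartzMap hgc)).continuous
    rw [SchwartzMap.fourier_coe] at h1
    exact h1
  have hFi : Integrable (𝓕 g) := by
    have h1 := (𝓕 (hgs.toSchwartzMap hgc)).integrable (μ := volume)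
    rw [SchwartzMap.fourier_coe] at h1
    exact h1
  have hgi : Integrable g := hgc.continuous.integrable_of_hasCompactSupport hgs
  have hinv : 𝓕⁻ (𝓕 g) = g := hgc.continuous.fourierInv_fourier_eq hgi hFi
  have hpi := Real.pi_pos
  refine ⟨fun τ => ((1 / (2 * Real.pi) : ℝ) : ℂ) * 𝓕 g (τ * (-1 / (2 * Real.pi))), ?_, ?_, ?_⟩
  · exact continuous_const.mul (hFc.comp (by fun_prop))
  · intro τ
    have hτ0 : 0 ≤ |τ| := abs_nonneg τ
    have h1 : |τ| ^ 10 * ‖𝓕 g (τ * (-1 / (2 * Real.pi)))‖ ≤ S * A * (2 * θ) := by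
      have h2 := hF10 (τ * (-1 / (2 * Real.pi)))
      rw [hFd] at h2
      simp only at h2
      rw [norm_smul, norm_pow] at h2
      have h3 : ‖(2 * Real.pi * I * ((τ * (-1 / (2 * Real.pi)) : ℝ) : ℂ) : ℂ)‖ = |τ| := by
        rw [norm_mul, norm_mul, norm_mul, Complex.norm_I, Complex.norm_real, Complex.norm_real, Complex.norm_ofNat,
          Real.norm_of_nonneg hpi.le, norm_mul, Real.norm_eq_abs, Real.norm_eq_abs, abs_div, abs_neg, abs_one,
          abs_of_pos (by positivity : 0 < 2 * Real.pi)]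
        field_simp
      rw [h3] at h2
      exact h2
    have h4 : (1 + |τ|) ^ 10 ≤ 2 ^ 10 * (1 + |τ| ^ 10) := by
      rcases le_total 1 |τ| with h | h
      · calc (1 + |τ|) ^ 10 ≤ (2 * |τ|) ^ 10 := by gcongr; linarith
          _ = 2 ^ 10 * |τ| ^ 10 := by rw [mul_pow]
          _ ≤ _ := by nlinarith
      · calc (1 + |τ|) ^ 10 ≤ 2 ^ 10 := by gcongr; linarith
          _ ≤ _ := by
              have : 0 ≤ |τ| ^ 10 := by positivity
              nlinarith
    rw [norm_mul, Complex.norm_real, Real.norm_of_nonneg (by positivity)]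
    have h5 : (1 + |τ|) ^ (-10 : ℝ) = ((1 + |τ|) ^ 10)⁻¹ := by
      rw [Real.rpow_neg (by positivity)]
      congr 1
      exact_mod_cast Real.rpow_natCast (1 + |τ|) 10
    rw [h5, ← div_eq_mul_inv, le_div_iff₀ (by positivity)]
    set Φ := ‖𝓕 g (τ * (-1 / (2 * Real.pi)))‖ with hΦ
    have hΦ0 : 0 ≤ Φ := norm_nonneg _
    have h6 : Φ ≤ A * (2 * θ) := hF0 _
    calc 1 / (2 * Real.pi) * Φ * (1 + |τ|) ^ 10 ≤ 1 / (2 * Real.pi) * Φ * (2 ^ 10 * (1 + |τ| ^ 10)) := by
          gcongr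
      _ = 1 / (2 * Real.pi) * 2 ^ 10 * (Φ + |τ| ^ 10 * Φ) := by ring
      _ ≤ 1 / (2 * Real.pi) * 2 ^ 10 * (A * (2 * θ) + S * A * (2 * θ)) := by gcongr
      _ = (θ / Real.pi) * (2 ^ 10 * (1 + S) * A) := by field_simp
      _ ≤ 1 * (2 ^ 10 * (1 + S) * A) := by
          apply mul_le_mul_of_nonneg_right _ (by positivity)
          rw [div_le_one hpi]
          have := Real.pi_gt_three
          linarith
      _ = _ := by rw [hA]; ring
  · intro u hu
    have h1 : chi θ u * e u = g u := rfl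
    have h2 : ((ph (u / θ) : ℝ) : ℂ) * cexp (-(z * u)) = g u * cexp (-u) := by
      rw [← chi_eq hθ hu, hg, he]
      simp only
      rw [mul_assoc, ← Complex.exp_add]
      congr 2
      ring
    have hgu : g u = 𝓕⁻ (𝓕 g) u := by rw [hinv]
    rw [h2, hgu, Real.fourierInv_eq', ← integral_mul_const]
    have h3 := Measure.integral_comp_mul_right (fun ξ : ℝ => cexp (((2 * Real.pi * inner ℝ ξ u : ℝ) : ℂ) * I) • 𝓕 g ξ * cexp (-u))
      (-1 / (2 * Real.pi))
    have h4 : |(-1 / (2 * Real.pi))⁻¹| = 2 * Real.pi := by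
      rw [inv_div, abs_div, abs_neg, abs_one, div_one, abs_of_pos (by positivity)]
    rw [h4] at h3
    have h5 : ∫ ξ : ℝ, cexp (((2 * Real.pi * inner ℝ ξ u : ℝ) : ℂ) * I) • 𝓕 g ξ * cexp (-u) =
        ((1 / (2 * Real.pi) : ℝ) : ℂ) * ∫ x : ℝ, (fun ξ : ℝ => cexp (((2 * Real.pi * inner ℝ ξ u : ℝ) : ℂ) * I) • 𝓕 g ξ * cexp (-u))
          (x * (-1 / (2 * Real.pi))) := by
      rw [h3, Complex.real_smul, ← mul_assoc, ← Complex.ofReal_mul]
      have h8 : 1 / (2 * Real.pi) * (2 * Real.pi) = 1 := by field_simp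
      rw [h8, Complex.ofReal_one, one_mul]
    rw [h5, ← integral_const_mul]
    congr 1
    ext τ
    simp only [smul_eq_mul]
    have h6 : cexp (((2 * Real.pi * inner ℝ (τ * (-1 / (2 * Real.pi))) u : ℝ) : ℂ) * I) * cexp (-u) =
        cexp (-((1 + I * τ) * u)) := by
      rw [← Complex.exp_add]
      congr 1
      have h7 : (inner ℝ (τ * (-1 / (2 * Real.pi))) u : ℝ) = u * (τ * (-1 / (2 * Real.pi))) := by
        simp
      rw [h7]
      have : (Real.pi : ℂ) ≠ 0 := by exact_mod_cast hpi.ne'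
      push_cast
      field_simp
      ring
    rw [← h6]
    generalize 𝓕 g (τ * (-1 / (2 * Real.pi))) = X
    generalize cexp (((2 * Real.pi * inner ℝ (τ * (-1 / (2 * Real.pi))) u : ℝ) : ℂ) * I) = Y
    ring

end Pool.Agent.W688.SD
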